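import Pool.Agent.H97.HV.Targets
import Pool.Agent.H45.CF.FO

/-!
# HNA. No homogeneous sets in the first case (MP_e37c09_lc)
-/

open Ordinal Cardinal Order Set
open scoped ZFSet

universe u

namespace Pool.Agent.H32.HV

open _root_.HD HD.PRK HD.HV

/-- `b` is the least `t ≥ n` below `a` such that `R a t` holds, and `0` if there is none. -/
def Rn (R : Ordinal.{u} → Ordinal.{u} → Prop) (n a b : Ordinal.{u}) : Prop :=
  ((n ≤ b ∧ R a b ∧ b < a) ∧ ∀ t < b, ¬ (n ≤ t ∧ R a t ∧ t < a)) ∨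
    ((∀ t < a, ¬ (n ≤ t ∧ R a t)) ∧ b = 0)

theorem rn_dr {R : Ordinal.{u} → Ordinal.{u} → Prop} (hR : DR R) (n : Ordinal.{u}) :
    DR (Rn R n) := by
  have g := fun i j => hR.s2 (X := fun x y => R x y) i j
  refine DO.or (DO.and (DO.and (DO.gec 1 n) ((g 0 1).and (DO.lt 1 0))) ?_)
    (DO.and ?_ (DO.eqc 1 0))
  · exact DO.allLt (R := fun t w => ¬ (n ≤ t ∧ R (w 0) t ∧ t < w 0)) 1
      (((DO.gec 0 n).and ((g 1 0).and (DO.lt 0 1))).not)
  · exact DO.allLt (R := fun t w => ¬ (n ≤ t ∧ R (w 0) t)) 0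
      (((DO.gec 0 n).and (g 1 0)).not)

theorem rn_un {R : Ordinal.{u} → Ordinal.{u} → Prop} {n a b b' : Ordinal.{u}}
    (h : Rn R n a b) (h' : Rn R n a b') : b = b' := by
  rcases h with ⟨h1, h2⟩ | ⟨h1, h2⟩
  · rcases h' with ⟨h1', h2'⟩ | ⟨h1', h2'⟩
    · rcases lt_trichotomy b b' with h3 | h3 | h3
      · exact absurd h1 (h2' b h3)
      · exact h3
      · exact absurd h1' (h2 b' h3)
    · exact absurd ⟨h1.1, h1.2.1⟩ (h1' b h1.2.2)
  · rcases h' with ⟨h1', h2'⟩ | ⟨h1', h2'⟩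
    · exact absurd ⟨h1'.1, h1'.2.1⟩ (h1 b' h1'.2.2)
    · rw [h2, h2']

theorem rn_ex (R : Ordinal.{u} → Ordinal.{u} → Prop) (n a : Ordinal.{u}) :
    ∃ b ≤ a, Rn R n a b := by
  by_cases h : ∃ t, n ≤ t ∧ R a t ∧ t < a
  · obtain ⟨c, hc, hm⟩ := WellFounded.has_min (wellFounded_lt (α := Ordinal.{u}))
      {t | n ≤ t ∧ R a t ∧ t < a} h
    exact ⟨c, hc.2.2.le, Or.inl ⟨hc, fun t ht h' => hm t h' ht⟩⟩
  · exact ⟨0, zero_le, Or.inr ⟨fun t ht h' => h ⟨t, h'.1, h'.2, ht⟩, rfl⟩⟩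

theorem rn_lt {R : Ordinal.{u} → Ordinal.{u} → Prop} {n a b : Ordinal.{u}}
    (h : Rn R n a b) (ha : 0 < a) : b < a := by
  rcases h with ⟨h1, -⟩ | ⟨-, h2⟩
  · exact h1.2.2
  · rw [h2]
    exact ha

theorem isFunc_rs {α β : Ordinal.{u}} {R : Ordinal.{u} → Ordinal.{u} → Prop}
    (h1 : ∀ a < α, ∃ b < β, R a b) (h2 : ∀ a b b', R a b → R a b' → b = b') :
    ZFSet.IsFunc α.toZFSet β.toZFSet (rs α β R) := by
  refine ⟨?_, ?_⟩
  · intro p hp
    obtain ⟨a, ha, b, hb, -, rfl⟩ := mem_rs.1 hp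
    rw [ZFSet.pair_mem_prod, toZFSet_mem_toZFSet_iff, toZFSet_mem_toZFSet_iff]
    exact ⟨ha, hb⟩
  · intro z hz
    obtain ⟨a, ha, rfl⟩ := mem_toZFSet_iff.1 hz
    obtain ⟨b, hb, hR⟩ := h1 a ha
    refine ⟨b.toZFSet, pair_mem_rs.2 ⟨ha, hb, hR⟩, ?_⟩
    intro w hw
    obtain ⟨a', -, b', -, hR', he⟩ := mem_rs.1 hw
    obtain ⟨e1, e2⟩ := ZFSet.pair_injective he
    have e3 := toZFSet_injective e1
    subst e3
    rw [e2, h2 _ _ _ hR hR']

theorem nv_hod (h0 : T_PVA.{u}) {γ : Ordinal.{u}} (hγ : 0 < γ) (x : ZFSet.{u}) :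
    HOD x → NV γ x := by
  apply @ZFSet.inductionOn _ x
  intro y ih hy
  exact ZFSet.hereditarily_iff.2 ⟨h0.1 γ y hγ hy.self, fun z hz => ih z hz (hy.mem hz)⟩

/-- the sequence `n i` -/
noncomputable def sq (c : Ordinal.{u} → Ordinal.{u}) (a : Ordinal.{u}) : Ordinal.{u} :=
  ⨆ i : Iio a, (c (sq c i.1) + 1)
termination_by a
decreasing_by exact i.2

theorem sq_lt {c : Ordinal.{u} → Ordinal.{u}} {K : Cardinal.{u}} (hK : K.IsRegular)
    (hc : ∀ n < K.ord, c n < K.ord) (a : Ordinal.{u}) (ha : a < K.ord) : sq c a < K.ord := by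
  induction a using WellFoundedLT.induction with
  | ind a ih =>
    rw [sq]
    refine Pool.Agent.H33.HD.VC.sup_lt (f := fun i : Iio a => c (sq c i.1)) ?_
      fun i => hc _ (ih i.1 i.2 (lt_trans i.2 ha))
    rw [hK.cof_ord]
    exact lt_ord.1 ha

theorem sq_gt (c : Ordinal.{u} → Ordinal.{u}) {i a : Ordinal.{u}} (hi : i < a) :
    c (sq c i) < sq c a := by
  have h2 : c (sq c i) + 1 ≤ ⨆ i : Iio a, (c (sq c i.1) + 1) :=
    Ordinal.le_iSup (fun i : Iio a => c (sq c i.1) + 1) ⟨i, hi⟩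
  have h4 : sq c a = ⨆ i : Iio a, (c (sq c i.1) + 1) := by rw [sq]
  rw [h4]
  exact lt_of_lt_of_le (lt_add_one _) h2

/-- HNA. -/
theorem pf_HNA (h0 : T_PVA.{u}) (h1 : T_YR.{u}) : T_HNA.{u} := by
  intro δ hδ hA K hK hδK γ hγ hI
  obtain ⟨D, hD, hDr, hDs, hD0⟩ := Pool.Agent.H45.CF.ext_card hδ
  have hDK : D < K := by
    rw [hD] at hδK
    exact Cardinal.ord_lt_ord.1 hδK
  have hK0 : ℵ₀ < K := hD0.trans hDK
  have hKlim : IsSuccLimit K.ord := isSuccLimit_ord hK.aleph0_le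
  have hKpos : (0 : Ordinal.{u}) < K.ord := hKlim.bot_lt
  obtain ⟨R, hR, hRa⟩ := h1 δ hδ hA
  -- the stationary set
  have hSt : St δ K.ord {a | IsSuccLimit a} := by
    intro C hC
    obtain ⟨b, hb, hbC, -, hbf⟩ := All.vc ℵ₀ K.ord Cardinal.isRegular_aleph0
      (by rw [hK.cof_ord]; exact hK0) C hC
    have hcof : b.cof = ℵ₀ := Cardinal.ord_injective hbf
    refine ⟨b, hb, hbC, Ordinal.one_lt_cof_iff.1 (by rw [hcof]; exact Cardinal.one_lt_aleph0), ?_⟩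
    rw [hcof, hD]
    exact Cardinal.ord_lt_ord.2 hD0
  obtain ⟨A, hAT, hAS, hAH⟩ := hI _ hSt
  have hU : Unb K.ord A := by
    intro η hη
    have hC : Clb K.ord (Ioi η) := by
      refine ⟨fun a ha => ?_, fun x hx hx0 h => ?_⟩
      · exact ⟨max a η + 1, hKlim.add_one_lt (max_lt ha hη),
          (le_max_left _ _).trans_lt (lt_add_one _),
          Set.mem_Ioi.2 ((le_max_right a η).trans_lt (lt_add_one _))⟩
      · obtain ⟨z, hz, -, hz2⟩ := h 0 hx0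
        exact lt_trans hz2 hz
    obtain ⟨a, ha, haC, haA, -⟩ := hAS _ hC
    exact ⟨a, haA, haC, ha⟩
  obtain ⟨hH, -⟩ := hAH K.ord le_rfl hKpos hU
  have hmin : 0 < min γ K.ord := lt_min hγ hKpos
  -- the values
  have hkey : ∀ n < K.ord, ∃ c < K.ord, n ≤ c ∧ ∃ η < K.ord, ∀ a ∈ A, η ≤ a → a < K.ord →
      R a c := by
    intro n hn
    obtain ⟨η, hη, c, hc⟩ := hH (rs K.ord K.ord (Rn R n))
      (nv_hod h0 hmin _ (hod_rs (rn_dr hR n) _ _))
      (isFunc_rs (fun a ha => by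
        obtain ⟨b, hb, h⟩ := rn_ex R n a
        exact ⟨b, hb.trans_lt ha, h⟩) fun a b b' h h' => rn_un h h')
      (fun a b hab h => rn_lt (pair_mem_rs.1 hab).2.2 h)
    have key : ∀ a ∈ A, max η n + 1 ≤ a → a < K.ord → c < K.ord ∧ n ≤ c ∧ R a c := by
      intro a ha h2 h3
      obtain ⟨h4, h5, h6⟩ := pair_mem_rs.1 (hc a ha
        ((le_max_left _ _).trans ((lt_add_one _).le.trans h2)) h3)
      have hna : n < a := (le_max_right _ _).trans_lt ((lt_add_one _).trans_le h2)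
      obtain ⟨hlt, -, hun⟩ := hRa a (hAT a ha).1 (hAT a ha).2
      rcases h6 with ⟨h6, -⟩ | ⟨h6, -⟩
      · exact ⟨h5, h6.1, h6.2.1⟩
      · obtain ⟨t, ht, hRt⟩ := hun n hna
        exact absurd ⟨ht, hRt⟩ (h6 t (hlt t hRt))
    have hs : max η n + 1 < K.ord := hKlim.add_one_lt (max_lt hη hn)
    obtain ⟨a, ha, ha1, ha2⟩ := hU _ hs
    have h7 := key a ha ha1.le ha2
    exact ⟨c, h7.1, h7.2.1, max η n + 1, hs, fun a' ha' h8 h9 => (key a' ha' h8 h9).2.2⟩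
  choose! c hcK hcn η hη hcR using hkey
  obtain ⟨s, hs, hsb⟩ := Pool.Agent.H3.HD.exists_bound (ρ := K.ord) (τ := δ)
    (by rw [hK.cof_ord, hD, Cardinal.card_ord]; exact hDK) (fun i => η (sq c i))
    (fun i hi => hη _ (sq_lt hK hcK i (hi.trans hδK)))
  obtain ⟨a, haA, ha1, ha2⟩ := hU s hs
  obtain ⟨-, ⟨τ, hτ, e, he⟩, -⟩ := hRa a (hAT a haA).1 (hAT a haA).2
  have hRi : ∀ i < δ, R a (c (sq c i)) := fun i hi =>
    hcR _ (sq_lt hK hcK i (hi.trans hδK)) a haA ((hsb i hi).trans ha1.le) ha2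
  have hinj : ∀ i < δ, ∀ j < δ, c (sq c i) = c (sq c j) → i = j := by
    have hlt : ∀ i j, i < j → j < δ → c (sq c i) < c (sq c j) := fun i j hij hj =>
      (sq_gt c hij).trans_le (hcn _ (sq_lt hK hcK j (hj.trans hδK)))
    intro i hi j hj hij
    rcases lt_trichotomy i j with h | h | h
    · exact absurd hij (hlt i j h hj).ne
    · exact h
    · exact absurd hij (hlt j i h hi).ne'
  have hex : ∀ i : Iio δ, ∃ t : Iio τ, e t.1 = c (sq c i.1) := fun i => by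
    obtain ⟨t, ht, hte⟩ := he _ (hRi i.1 i.2)
    exact ⟨⟨t, ht⟩, hte⟩
  choose g hg using hex
  have hgi : Function.Injective g := fun i j hij => by
    apply Subtype.ext
    refine hinj i.1 i.2 j.1 j.2 ?_
    rw [← hg i, ← hg j, hij]
  have hcard := Cardinal.mk_le_of_injective hgi
  rw [Cardinal.mk_Iio_ordinal, Cardinal.mk_Iio_ordinal, Cardinal.lift_le, hD,
    Cardinal.card_ord] at hcard
  rw [hD] at hτ
  exact absurd hcard (not_le.2 (lt_ord.1 hτ))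

end Pool.Agent.H32.HV
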